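import Pool.Agent.H675R4.HL.TaskMain
import Pool.Agent.H675R4.HL.TaskStr
import Pool.Agent.H675R4.HL.TaskAlg
import Pool.Agent.H675R4.HL.TaskBase
import Pool.Agent.H675R4.HL.TaskChar
import Pool.Agent.H675R4.HL.TaskElem
import Pool.Agent.H675R4.HL.TaskFix
import Pool.Agent.H675R4.HL.TaskQuot
import Pool.Agent.H675R4.HL.TaskR
import Pool.Agent.H675R4.HL.TaskSZ
import Pool.Agent.H675R4.HL.TaskTriv
import Pool.Agent.H99R3.HL.TaskSub

/-!
# Hall subloops in finite automorphic loops which are abelian-by-(solvable group)

Let `Q` be a finite automorphic loop with a homomorphism `f` to a solvable group whose kernel is an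
abelian group. Then `Q` has a Hall `P`-subloop for every set `P` of primes.

Idea of the proof. By induction one reduces to the case where the kernel `M` is a minimal normal
subloop of order a power of `p`, `p` not in `P` and prime to the order of the quotient, and where no
nontrivial automorphism of order prime to `p` is trivial on the quotient. Then all automorphisms
which are trivial on the quotient are trivial on `M`, and the associator of `Q` is a function of
three variables on the quotient group with values in `M`, a derivation in the last variable and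
(after a twist) in the first one. An averaging argument over an abelian normal subgroup shows that it
vanishes: `Q` is a group, and the theorem of Schur and Zassenhaus applies.
-/

set_option autoImplicit false

namespace Pool.Agent.Results.MP_428e1d_al.AbelianBySolvable

open H675HL

theorem result :
  ∀ (Q : Type) [Fintype Q] (mul : Q → Q → Q) (e : Q),
    (∀ x, mul e x = x ∧ mul x e = x) →
    (∀ a, Function.Bijective (mul a)) →
    (∀ a, Function.Bijective (fun x => mul x a)) →
    (∀ x y u v a b, mul (mul x y) a = mul x (mul y u) →
        mul (mul x y) b = mul x (mul y v) →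
        mul (mul x y) (mul a b) = mul x (mul y (mul u v))) →
    (∀ x y u v a b, mul a (mul y x) = mul (mul u y) x →
        mul b (mul y x) = mul (mul v y) x →
        mul (mul a b) (mul y x) = mul (mul (mul u v) y) x) →
    (∀ x u v a b, mul a x = mul x u → mul b x = mul x v →
        mul (mul a b) x = mul x (mul u v)) →
    ∀ (K : Type) [Group K] [Group.IsSolvable K] (f : Q → K),
      (∀ x y, f (mul x y) = f x * f y) →
      (∀ x y, f x = 1 → f y = 1 → mul x y = mul y x) →
      (∀ x y z, f x = 1 → f y = 1 → f z = 1 → mul (mul x y) z = mul x (mul y z)) →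
    ∀ P : Set ℕ, ∃ H : Finset Q, e ∈ H ∧ (∀ a ∈ H, ∀ b ∈ H, mul a b ∈ H) ∧
      ∃ k : ℕ, H.card * k = Fintype.card Q ∧
        (∀ p : ℕ, p.Prime → p ∣ H.card → p ∈ P) ∧
        (∀ p : ℕ, p.Prime → p ∣ k → p ∉ P) := by
  intro Q _ mul e h1 hL hR haL haR haT K _ hK f hf hc ha P
  let A : AL Q :=
    { mul := mul
      one := e
      one_mul' := fun a => (h1 a).1
      mul_one' := fun a => (h1 a).2
      bijL := hL
      bijR := hR
      autL := haL
      autR := haR
      autT := haT }
  have hgood : Good Q := ⟨K, inferInstance, f, hK, hf, hc, ha⟩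
  obtain ⟨H, -, ⟨hH1, hH2⟩, k, hk1, hk2, hk3⟩ :=
    taskMain H99.taskSub taskQuot taskChar (taskElem taskChar) (taskR taskChar) taskFix
      (taskTriv taskChar) (taskStr taskAlg) taskSZ taskBase Q hgood P
  classical
  have hcard : H.toFinset.card = Nat.card H := by
    rw [Set.toFinset_card, Nat.card_eq_fintype_card]
  have hu : Nat.card (Set.univ : Set Q) = Fintype.card Q := by
    rw [Nat.card_congr (Equiv.Set.univ Q), Nat.card_eq_fintype_card]
  refine ⟨H.toFinset, Set.mem_toFinset.2 hH1, ?_, k, ?_, ?_, hk3⟩
  · intro a ha b hb
    exact Set.mem_toFinset.2 (hH2 a (Set.mem_toFinset.1 ha) b (Set.mem_toFinset.1 hb))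
  · rw [hcard, hk1, hu]
  · intro p hp hd
    rw [hcard] at hd
    exact hk2 p hp hd

end Pool.Agent.Results.MP_428e1d_al.AbelianBySolvable
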